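import Pool.Agent.X209.EQ.Cliff

/-!
# Cyclic extensions inside a group
-/

open scoped Classical BigOperators
open Pool.Agent.Helper884.IC Pool.Agent.Y63.AWC Pool.Agent.X209.DI

set_option linter.unusedSectionVars false
set_option linter.unusedVariables false

noncomputable section

namespace Pool.Agent.X209.EQ

section

variable {p : ℕ} [hp : Fact p.Prime] {E : Type} [Group E] {G : Subgroup E}

/-- the normaliser in `E` of a subgroup of `G` -/
def NE (P : Subgroup G) : Subgroup E := Subgroup.normalizer ((P.map G.subtype : Subgroup E) : Set E)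

/-- the embedding of the normaliser in `G` -/
def iN (P : Subgroup G) : Subgroup.normalizer (P : Set G) →* E :=
  G.subtype.comp (Subgroup.subtype _)

lemma iN_apply (P : Subgroup G) (x : Subgroup.normalizer (P : Set G)) :
    iN P x = ((x : G) : E) := rfl

lemma iN_inj (P : Subgroup G) : Function.Injective (iN P) := by
  intro x y h
  exact Subtype.ext (Subtype.ext h)

lemma mem_map_sub {P : Subgroup G} {x : G} : (x : E) ∈ P.map G.subtype ↔ x ∈ P := by
  constructor
  · rintro ⟨y, hy, hyx⟩
    have : y = x := Subtype.ext hyx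
    rwa [← this]
  · intro h
    exact ⟨x, h, rfl⟩

variable [hG : G.Normal]

lemma mem_NE {P : Subgroup G} {x : G} :
    (x : E) ∈ NE P ↔ x ∈ Subgroup.normalizer (P : Set G) := by
  unfold NE
  rw [Subgroup.mem_normalizer_iff, Subgroup.mem_normalizer_iff]
  constructor
  · intro h y
    have h1 := h (y : E)
    rw [mem_map_sub] at h1
    rw [h1]
    exact mem_map_sub (x := x * y * x⁻¹)
  · intro h y
    by_cases hy : y ∈ G
    · have h1 := h ⟨y, hy⟩
      rw [← mem_map_sub] at h1
      exact h1.trans (mem_map_sub (P := P) (x := x * ⟨y, hy⟩ * x⁻¹)).symm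
    · constructor
      · intro h1
        exact absurd ((Subgroup.map_subtype_le P) h1) hy
      · intro h1
        have h2 := (Subgroup.map_subtype_le P) h1
        exfalso
        apply hy
        have h3 := G.mul_mem (G.mul_mem (G.inv_mem x.2) h2) x.2
        have e : (x : E)⁻¹ * ((x : E) * y * (x : E)⁻¹) * (x : E) = y := by group
        rwa [e] at h3

variable [Finite E]

/-- **From the statement for all groups.** -/
theorem num_inf (hQ : ∀ (H : Type) [Group H] [Finite H] (R : Sylow p H) (m : ℕ),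
      num p H m = num p (Subgroup.normalizer ((R : Subgroup H) : Set H)) m) (P : Sylow p G)
    {X : Subgroup E} (hX : G ≤ X) (m : ℕ) :
    num p X m = num p (X ⊓ NE (P : Subgroup G) : Subgroup E) m := by
  have hPp : IsPGroup p (((P : Subgroup G).map G.subtype).subgroupOf X) :=
    (P.isPGroup'.map G.subtype).comap_of_injective X.subtype X.subtype_injective
  obtain ⟨R, hR⟩ := hPp.exists_le_sylow
  -- the intersection with `G`
  have hRG : ((R : Subgroup X).map X.subtype).comap G.subtype = (P : Subgroup G) := by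
    apply P.is_maximal'
    · exact (R.isPGroup'.map X.subtype).comap_of_injective G.subtype G.subtype_injective
    · intro y hy
      have h1 : (⟨(y : E), hX y.2⟩ : X) ∈ ((P : Subgroup G).map G.subtype).subgroupOf X := by
        rw [Subgroup.mem_subgroupOf]
        exact mem_map_sub.mpr hy
      exact ⟨_, hR h1, rfl⟩
  have hmem : ∀ y : E, y ∈ (P : Subgroup G).map G.subtype ↔
      y ∈ G ∧ y ∈ (R : Subgroup X).map X.subtype := by
    intro y
    constructor
    · intro h
      have hy := (Subgroup.map_subtype_le _) h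
      refine ⟨hy, ?_⟩
      have h1 : (⟨y, hy⟩ : G) ∈ (P : Subgroup G) := mem_map_sub.mp h
      rw [← hRG] at h1
      exact h1
    · rintro ⟨hy, h1⟩
      have h2 : (⟨y, hy⟩ : G) ∈ ((R : Subgroup X).map X.subtype).comap G.subtype := h1
      rw [hRG] at h2
      exact mem_map_sub.mpr h2
  have hle : Subgroup.normalizer ((R : Subgroup X) : Set X) ≤
      (NE (P : Subgroup G)).subgroupOf X := by
    intro x hx
    rw [Subgroup.mem_subgroupOf]
    unfold NE
    rw [Subgroup.mem_normalizer_iff] at hx ⊢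
    intro y
    rw [hmem, hmem]
    refine and_congr ?_ ?_
    · constructor
      · intro h
        exact hG.conj_mem y h _
      · intro h
        have h1 := hG.conj_mem _ h (x : E)⁻¹
        have e : (x : E)⁻¹ * ((x : E) * y * (x : E)⁻¹) * (x : E)⁻¹⁻¹ = y := by group
        rwa [e] at h1
    · constructor
      · rintro ⟨z, hz, rfl⟩
        exact ⟨x * z * x⁻¹, (hx z).mp hz, rfl⟩
      · rintro ⟨z, hz, hzy⟩
        have h1 : z = x * (x⁻¹ * z * x) * x⁻¹ := by group
        have hz' : z ∈ (R : Subgroup X) := hz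
        rw [h1] at hz'
        have h2 := (hx (x⁻¹ * z * x)).mpr hz'
        refine ⟨_, h2, ?_⟩
        have hzy' : (z : E) = (x : E) * y * (x : E)⁻¹ := hzy
        change (x : E)⁻¹ * (z : E) * (x : E) = y
        rw [hzy']
        group
  have hRK : (R : Subgroup X) ≤ (NE (P : Subgroup G)).subgroupOf X :=
    Subgroup.le_normalizer.trans hle
  have h1 := hQ X R m
  have h2 := hQ ((NE (P : Subgroup G)).subgroupOf X) (R.subtype hRK) m
  have h3 : Subgroup.normalizer (((R.subtype hRK : Sylow p _) :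
      Subgroup ((NE (P : Subgroup G)).subgroupOf X)) : Set ((NE (P : Subgroup G)).subgroupOf X)) =
      (Subgroup.normalizer ((R : Subgroup X) : Set X)).subgroupOf
        ((NE (P : Subgroup G)).subgroupOf X) := by
    rw [Subgroup.subgroupOf_normalizer_eq hRK, Sylow.coe_subtype]
  have h4 := num_equiv ((MulEquiv.subgroupCongr h3).trans (Subgroup.subgroupOfEquivOfLe hle)) p m
  have h5 : ((NE (P : Subgroup G)).subgroupOf X).map X.subtype = X ⊓ NE (P : Subgroup G) := by
    rw [Subgroup.subgroupOf_map_subtype, inf_comm]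
  have h6 := num_equiv ((Subgroup.equivMapOfInjective ((NE (P : Subgroup G)).subgroupOf X)
    X.subtype X.subtype_injective).trans (MulEquiv.subgroupCongr h5)) p m
  rw [h1, ← h4, ← h2, h6]

end

section

variable {p : ℕ} [hp : Fact p.Prime] {E : Type} [Group E] {G : Subgroup E} [hG : G.Normal]
  [Finite E]

lemma cf_coe {A : Type} [Group A] (S : Subgroup E) (i : A →* S) (x : S) (m : ℕ) :
    cf p i x m = cf p (S.subtype.comp i) (x : E) m := by
  unfold cf
  refine Nat.card_congr (Equiv.subtypeEquivRight fun θ => ?_)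
  refine and_congr Iff.rfl (and_congr Iff.rfl ?_)
  unfold Fx
  refine forall_congr' fun a => forall_congr' fun b => ?_
  rw [Subtype.ext_iff]
  rfl

lemma sup_gen {e x : E} (hx : x ∈ G ⊔ Subgroup.zpowers e) : ∃ k : ℕ, x⁻¹ * e ^ k ∈ G := by
  obtain ⟨y, hy, z, hz, rfl⟩ := Subgroup.mem_sup_of_normal_left.mp hx
  obtain ⟨k, hk⟩ := (mem_powers_iff_mem_zpowers (x := e) (y := z)).mpr hz
  refine ⟨k, ?_⟩
  simp only at hk
  rw [hk]
  have h1 := hG.conj_mem _ (G.inv_mem hy) z⁻¹
  have e1 : z⁻¹ * y⁻¹ * z⁻¹⁻¹ = (y * z)⁻¹ * z := by group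
  rwa [e1] at h1

/-- the embedding of the normaliser in `G` -/
def jN (P : Subgroup G) {X : Subgroup E} (hX : G ≤ X) :
    Subgroup.normalizer (P : Set G) →* (X ⊓ NE P : Subgroup E) :=
  (iN P).codRestrict _ (fun x => ⟨hX (x : G).2, mem_NE.mpr x.2⟩)

lemma jN_range (P : Subgroup G) {X : Subgroup E} (hX : G ≤ X) (u : (X ⊓ NE P : Subgroup E)) :
    u ∈ (jN P hX).range ↔ (u : E) ∈ G := by
  constructor
  · rintro ⟨x, rfl⟩
    exact (x : G).2
  · intro h
    refine ⟨⟨⟨u, h⟩, mem_NE.mp u.2.2⟩, ?_⟩
    apply Subtype.ext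
    rfl

lemma iG_range {X : Subgroup E} (hX : G ≤ X) (u : X) :
    u ∈ (Subgroup.inclusion hX).range ↔ (u : E) ∈ G := by
  rw [Subgroup.inclusion_range, Subgroup.mem_subgroupOf]

instance iG_normal {X : Subgroup E} (hX : G ≤ X) : (Subgroup.inclusion hX).range.Normal := by
  constructor
  intro n hn g
  rw [iG_range] at hn ⊢
  exact hG.conj_mem _ hn _

instance jN_normal (P : Subgroup G) {X : Subgroup E} (hX : G ≤ X) : (jN P hX).range.Normal := by
  constructor
  intro n hn g
  rw [jN_range] at hn ⊢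
  exact hG.conj_mem _ hn _

lemma jN_inj (P : Subgroup G) {X : Subgroup E} (hX : G ≤ X) : Function.Injective (jN P hX) := by
  intro x y h
  have h1 : (jN P hX x : E) = jN P hX y := by rw [h]
  exact iN_inj P h1

variable (P : Subgroup G) {e : E} (he : e ∈ NE P)

/-- the order of `e` modulo `G` -/
lemma index_eq (e : E) :
    (Subgroup.inclusion (le_sup_left : G ≤ G ⊔ Subgroup.zpowers e)).range.index =
      orderOf (QuotientGroup.mk e : E ⧸ G) := by
  have : Fintype (G ⊔ Subgroup.zpowers e : Subgroup E) := Fintype.ofFinite _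
  have heX : e ∈ G ⊔ Subgroup.zpowers e :=
    (le_sup_right : Subgroup.zpowers e ≤ _) (Subgroup.mem_zpowers e)
  have hkey : ∀ d : ℕ, (Subgroup.inclusion (le_sup_left : G ≤ G ⊔ Subgroup.zpowers e)).range.index ∣ d
      ↔ orderOf (QuotientGroup.mk e : E ⧸ G) ∣ d := by
    intro d
    rw [← pow_mem_iff (Subgroup.inclusion (le_sup_left : G ≤ G ⊔ Subgroup.zpowers e)).range
      (g := ⟨e, heX⟩) (fun x => by
        obtain ⟨k, hk⟩ := sup_gen x.2
        exact ⟨k, by rw [iG_range]; exact hk⟩) le_rfl, iG_range, orderOf_dvd_iff_pow_eq_one,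
        ← QuotientGroup.mk_pow, QuotientGroup.eq_one_iff]
    exact Iff.rfl
  exact Nat.dvd_antisymm ((hkey _).mpr dvd_rfl) ((hkey _).mp dvd_rfl)

include he in
/-- one step -/
lemma one_step (hnum : ∀ m, num p (G ⊔ Subgroup.zpowers e : Subgroup E) m =
      num p ((G ⊔ Subgroup.zpowers e) ⊓ NE P : Subgroup E) m)
    (hprop : ∀ d, d ∣ orderOf (QuotientGroup.mk e : E ⧸ G) → d ≠ 1 →
      ∀ m, cf p G.subtype (e ^ d) m = cf p (iN P) (e ^ d) m) (m : ℕ) :
    cf p G.subtype e m = cf p (iN P) e m := by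
  have : Fintype (G ⊔ Subgroup.zpowers e : Subgroup E) := Fintype.ofFinite _
  have : Fintype ((G ⊔ Subgroup.zpowers e) ⊓ NE P : Subgroup E) := Fintype.ofFinite _
  have hX : G ≤ G ⊔ Subgroup.zpowers e := le_sup_left
  have heX : e ∈ G ⊔ Subgroup.zpowers e :=
    (le_sup_right : Subgroup.zpowers e ≤ _) (Subgroup.mem_zpowers e)
  have h1 := step (p := p) (Subgroup.inclusion hX) (Subgroup.inclusion_injective hX) (jN P hX)
    (jN_inj P hX) (g := ⟨e, heX⟩) (g' := ⟨e, heX, he⟩) (fun x => by
        obtain ⟨k, hk⟩ := sup_gen x.2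
        exact ⟨k, by rw [iG_range]; exact hk⟩) (fun x => by
        obtain ⟨k, hk⟩ := sup_gen x.2.1
        exact ⟨k, by rw [jN_range]; exact hk⟩) (fun d => by
        rw [iG_range, jN_range]
        exact Iff.rfl) hnum (by
        intro d hd hd1 m
        rw [index_eq] at hd
        rw [cf_coe, cf_coe]
        exact hprop d hd hd1 m) m
  rw [cf_coe, cf_coe] at h1
  exact h1

include he in
lemma one_step' (hprop : ∀ d, d ∣ orderOf (QuotientGroup.mk e : E ⧸ G) →
      ∀ m, cf p G.subtype (e ^ d) m = cf p (iN P) (e ^ d) m) (m : ℕ) :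
    num p (G ⊔ Subgroup.zpowers e : Subgroup E) m =
      num p ((G ⊔ Subgroup.zpowers e) ⊓ NE P : Subgroup E) m := by
  have : Fintype (G ⊔ Subgroup.zpowers e : Subgroup E) := Fintype.ofFinite _
  have : Fintype ((G ⊔ Subgroup.zpowers e) ⊓ NE P : Subgroup E) := Fintype.ofFinite _
  have hX : G ≤ G ⊔ Subgroup.zpowers e := le_sup_left
  have heX : e ∈ G ⊔ Subgroup.zpowers e :=
    (le_sup_right : Subgroup.zpowers e ≤ _) (Subgroup.mem_zpowers e)
  exact step' (p := p) (Subgroup.inclusion hX) (Subgroup.inclusion_injective hX) (jN P hX)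
    (jN_inj P hX) (g := ⟨e, heX⟩) (g' := ⟨e, heX, he⟩) (fun x => by
        obtain ⟨k, hk⟩ := sup_gen x.2
        exact ⟨k, by rw [iG_range]; exact hk⟩) (fun x => by
        obtain ⟨k, hk⟩ := sup_gen x.2.1
        exact ⟨k, by rw [jN_range]; exact hk⟩) (fun d => by
        rw [iG_range, jN_range]
        exact Iff.rfl) (by
        intro d hd m
        rw [index_eq] at hd
        rw [cf_coe, cf_coe]
        exact hprop d hd m) m

/-- **The counts of the cyclic extensions determine the numbers of the fixed characters.** -/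
theorem main_fix (hnum : ∀ e ∈ NE P, ∀ m, num p (G ⊔ Subgroup.zpowers e : Subgroup E) m =
      num p ((G ⊔ Subgroup.zpowers e) ⊓ NE P : Subgroup E) m) (n : ℕ) : ∀ e ∈ NE P,
    orderOf (QuotientGroup.mk e : E ⧸ G) = n → ∀ m, cf p G.subtype e m = cf p (iN P) e m := by
  induction n using Nat.strong_induction_on with
  | _ n ih =>
    intro e he hn m
    apply one_step P he (hnum e he)
    intro d hd hd1 m
    have hfin : Finite (E ⧸ G) := inferInstance
    have h0 : 0 < orderOf (QuotientGroup.mk e : E ⧸ G) := orderOf_pos _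
    have hd0 : d ≠ 0 := fun h => by
      rw [h] at hd
      exact h0.ne' (zero_dvd_iff.mp hd)
    have h1 : orderOf (QuotientGroup.mk (e ^ d) : E ⧸ G) =
        orderOf (QuotientGroup.mk e : E ⧸ G) / d := by
      rw [QuotientGroup.mk_pow]
      exact orderOf_pow_of_dvd hd0 hd
    refine ih _ ?_ (e ^ d) (Subgroup.pow_mem _ he d) h1 m
    rw [← hn]
    exact Nat.div_lt_self h0 (by omega)

theorem main_num (hfix : ∀ e ∈ NE P, ∀ m, cf p G.subtype e m = cf p (iN P) e m) :
    ∀ e ∈ NE P, ∀ m, num p (G ⊔ Subgroup.zpowers e : Subgroup E) m =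
      num p ((G ⊔ Subgroup.zpowers e) ⊓ NE P : Subgroup E) m := by
  intro e he m
  apply one_step' P he
  intro d _ m
  exact hfix _ (Subgroup.pow_mem _ he d) m

/-- Frattini -/
lemma frattini (P : Sylow p G) (e : E) : ∃ k ∈ NE (P : Subgroup G),
    G ⊔ Subgroup.zpowers e = G ⊔ Subgroup.zpowers k := by
  have h1 := Sylow.normalizer_sup_eq_top P
  have h2 : e ∈ Subgroup.normalizer (((P : Subgroup G).map G.subtype : Subgroup E) : Set E) ⊔ G := by
    rw [h1]
    trivial
  obtain ⟨k, hk, a, ha, rfl⟩ := Subgroup.mem_sup_of_normal_right.mp h2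
  refine ⟨k, hk, ?_⟩
  have hkl : ∀ z : E, z ∈ G ⊔ Subgroup.zpowers z := fun z =>
    (le_sup_right : Subgroup.zpowers z ≤ _) (Subgroup.mem_zpowers z)
  apply le_antisymm
  · refine sup_le le_sup_left ?_
    rw [Subgroup.zpowers_le]
    exact Subgroup.mul_mem _ (hkl k) ((le_sup_left : G ≤ _) ha)
  · refine sup_le le_sup_left ?_
    rw [Subgroup.zpowers_le]
    have h3 := Subgroup.mul_mem _ (hkl (k * a))
      ((le_sup_left : G ≤ G ⊔ Subgroup.zpowers (k * a)) (G.inv_mem ha))
    rwa [mul_inv_cancel_right] at h3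

end

end Pool.Agent.X209.EQ
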