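import Mathlib

/-!
# A system of equations indexed by divisors and residues
-/

open scoped BigOperators Classical

set_option linter.unusedSectionVars false
set_option linter.unusedVariables false

noncomputable section

namespace Pool.Agent.X209.EQ

lemma sum_sq_lt (n : ℕ) : ∑ o ∈ Finset.Icc 2 (n + 1), (1 : ℚ) / (o : ℚ) ^ 2 ≤ 1 - 1 / (n + 1 : ℚ) := by
  induction n with
  | zero => simp
  | succ n ih =>
    rw [Finset.sum_Icc_succ_top (by omega)]
    have h1 : (1 : ℚ) / ((n + 1 + 1 : ℕ) : ℚ) ^ 2 ≤ 1 / (n + 1 : ℚ) - 1 / (n + 1 + 1 : ℚ) := by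
      push_cast
      have h2 : (0 : ℚ) < n + 1 := by positivity
      have h3 : (0 : ℚ) < n + 1 + 1 := by positivity
      rw [div_sub_div _ _ h2.ne' h3.ne', div_le_div_iff₀ (by positivity) (by positivity)]
      nlinarith
    push_cast at h1 ih ⊢
    linarith

lemma sum_div_lt {n : ℕ} (hn : n ≠ 0) (s : Finset ℕ) (hs : s ⊆ n.divisors) (h1 : 1 ∉ s) :
    ∑ o ∈ s, (1 : ℚ) / (o : ℚ) ^ 2 < 1 := by
  have h2 : s ⊆ Finset.Icc 2 (n + 1) := by
    intro o ho
    have h3 := Nat.mem_divisors.mp (hs ho)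
    have h4 : o ≠ 0 := fun h => by rw [h] at h3; exact hn (zero_dvd_iff.mp h3.1)
    have h5 : o ≠ 1 := fun h => h1 (h ▸ ho)
    have h6 := Nat.le_of_dvd (Nat.pos_of_ne_zero hn) h3.1
    rw [Finset.mem_Icc]
    omega
  have h3 : ∑ o ∈ s, (1 : ℚ) / (o : ℚ) ^ 2 ≤ ∑ o ∈ Finset.Icc 2 (n + 1), (1 : ℚ) / (o : ℚ) ^ 2 :=
    Finset.sum_le_sum_of_subset_of_nonneg h2 (fun _ _ _ => by positivity)
  have h4 := sum_sq_lt n
  have h5 : (0 : ℚ) < 1 / (n + 1 : ℚ) := by positivity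
  linarith

/-- the maximum principle -/
theorem key {p n : ℕ} (hp : 0 < p) (hp1 : ¬ p ∣ 1) (hn : n ≠ 0) (D : ℕ → ℤ)
    (hper : ∀ m m', m ≡ m' [MOD p] → D m = D m')
    (h : ∀ m, ∑ o ∈ n.divisors.filter (fun o => ¬ p ∣ o),
      (ArithmeticFunction.moebius o : ℚ) / (o : ℚ) ^ 2 * (D (m * o ^ (p - 2)) : ℚ) = 0) :
    ∀ m, D m = 0 := by
  obtain ⟨m0, _, hm0⟩ := Finset.exists_max_image (Finset.range p) (fun m => |D m|)
    ⟨0, Finset.mem_range.mpr hp⟩
  have hmax : ∀ m, |D m| ≤ |D m0| := by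
    intro m
    rw [hper m (m % p) (Nat.mod_modEq m p).symm]
    exact hm0 _ (Finset.mem_range.mpr (Nat.mod_lt m hp))
  have h1 := h m0
  have hmem : 1 ∈ n.divisors.filter (fun o => ¬ p ∣ o) := by
    rw [Finset.mem_filter, Nat.mem_divisors]
    exact ⟨⟨one_dvd n, hn⟩, hp1⟩
  rw [← Finset.add_sum_erase _ _ hmem] at h1
  simp only [ArithmeticFunction.moebius_apply_one, Int.cast_one, Nat.cast_one, one_pow, div_one,
    one_mul, mul_one] at h1
  set s := (n.divisors.filter (fun o => ¬ p ∣ o)).erase 1 with hs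
  have h2 : ∑ o ∈ s, (1 : ℚ) / (o : ℚ) ^ 2 < 1 := by
    apply sum_div_lt hn
    · exact (Finset.erase_subset _ _).trans (Finset.filter_subset _ _)
    · rw [hs]
      exact Finset.notMem_erase 1 _
  have h3 : |(D m0 : ℚ)| ≤ |(D m0 : ℚ)| * ∑ o ∈ s, (1 : ℚ) / (o : ℚ) ^ 2 := by
    have h4 : (D m0 : ℚ) = -∑ o ∈ s, (ArithmeticFunction.moebius o : ℚ) / (o : ℚ) ^ 2 *
        (D (m0 * o ^ (p - 2)) : ℚ) := by linarith
    rw [Finset.mul_sum]
    calc |(D m0 : ℚ)| = |∑ o ∈ s, (ArithmeticFunction.moebius o : ℚ) / (o : ℚ) ^ 2 *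
        (D (m0 * o ^ (p - 2)) : ℚ)| := by rw [h4, abs_neg]
      _ ≤ ∑ o ∈ s, |(ArithmeticFunction.moebius o : ℚ) / (o : ℚ) ^ 2 *
        (D (m0 * o ^ (p - 2)) : ℚ)| := Finset.abs_sum_le_sum_abs _ _
      _ ≤ ∑ o ∈ s, |(D m0 : ℚ)| * (1 / (o : ℚ) ^ 2) := by
        refine Finset.sum_le_sum fun o _ => ?_
        rw [abs_mul, abs_div, mul_comm]
        apply mul_le_mul
        · have h5 := hmax (m0 * o ^ (p - 2))
          exact_mod_cast h5
        · have h6 : |(ArithmeticFunction.moebius o : ℚ)| ≤ 1 := by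
            have h7 := ArithmeticFunction.abs_moebius_le_one (n := o)
            exact_mod_cast h7
          have h8 : |(o : ℚ) ^ 2| = (o : ℚ) ^ 2 := abs_of_nonneg (by positivity)
          rw [h8]
          exact div_le_div_of_nonneg_right h6 (by positivity)
        · positivity
        · positivity
  have h5 : |(D m0 : ℚ)| = 0 := by
    by_contra hne
    have h6 : 0 < |(D m0 : ℚ)| := lt_of_le_of_ne (abs_nonneg _) (Ne.symm hne)
    nlinarith
  have h6 : |D m0| = 0 := by exact_mod_cast h5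
  intro m
  have h7 := hmax m
  rw [h6] at h7
  exact abs_eq_zero.mp (le_antisymm h7 (abs_nonneg _))

/-- two solutions of the system which agree for the proper powers agree -/
theorem system {p n : ℕ} (hp : 0 < p) (hp1 : ¬ p ∣ 1) (hn : n ≠ 0) (ga ga' : ℕ → ℕ → ℕ)
    (hper : ∀ o m m', m ≡ m' [MOD p] → ga o m = ga o m')
    (hper' : ∀ o m m', m ≡ m' [MOD p] → ga' o m = ga' o m')
    (hbeta : ∀ d, d ∣ n → d ≠ 1 → ∀ m, ∑ o ∈ d.divisors, ga o m = ∑ o ∈ d.divisors, ga' o m)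
    (h : ∀ m, ∑ o ∈ n.divisors.filter (fun o => ¬ p ∣ o), (ga o (m * o ^ (p - 2)) : ℚ) / (o : ℚ) ^ 2 =
      ∑ o ∈ n.divisors.filter (fun o => ¬ p ∣ o), (ga' o (m * o ^ (p - 2)) : ℚ) / (o : ℚ) ^ 2) :
    ∀ m, ga 1 m = ga' 1 m := by
  have hde : ∀ o, o ∣ n → ∀ m, (ga o m : ℤ) - (ga' o m : ℤ) =
      ArithmeticFunction.moebius o * ((ga 1 m : ℤ) - (ga' 1 m : ℤ)) := by
    intro o ho m
    have h1 := (ArithmeticFunction.sum_eq_iff_sum_smul_moebius_eq_on
      (f := fun d => (ga d m : ℤ) - (ga' d m : ℤ))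
      (g := fun d => if d = 1 then (ga 1 m : ℤ) - (ga' 1 m : ℤ) else 0) {d | d ∣ n}
      (fun a b hab hb => hab.trans hb)).mp (by
        intro d hd hdn
        by_cases h2 : d = 1
        · rw [h2, Nat.divisors_one, Finset.sum_singleton, if_pos rfl]
        · rw [if_neg h2, Finset.sum_sub_distrib]
          have h3 := hbeta d hdn h2 m
          have h4 : (∑ o ∈ d.divisors, (ga o m : ℤ)) = ∑ o ∈ d.divisors, (ga' o m : ℤ) := by
            exact_mod_cast h3
          rw [h4, sub_self])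
    have ho0 : 0 < o := Nat.pos_of_ne_zero fun h0 => by
      rw [h0] at ho
      exact hn (zero_dvd_iff.mp ho)
    have h2 := h1 o ho0 ho
    rw [← h2, Finset.sum_eq_single (o, 1)]
    · simp
    · rintro ⟨a, b⟩ hab hne
      have h3 := Nat.mem_divisorsAntidiagonal.mp hab
      have h4 : b ≠ 1 := by
        rintro rfl
        apply hne
        have h5 : a * 1 = o := h3.1
        rw [mul_one] at h5
        rw [h5]
      simp [h4]
    · intro h3
      exact absurd (Nat.mem_divisorsAntidiagonal.mpr ⟨mul_one o, ho0.ne'⟩) h3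
  have h1 := key hp hp1 hn (fun m => (ga 1 m : ℤ) - (ga' 1 m : ℤ))
    (fun m m' hm => by simp only [hper 1 m m' hm, hper' 1 m m' hm]) (by
      intro m
      have h2 := h m
      rw [← sub_eq_zero, ← Finset.sum_sub_distrib] at h2
      rw [← h2]
      refine Finset.sum_congr rfl fun o ho => ?_
      have h3 := hde o (Nat.mem_divisors.mp (Finset.mem_filter.mp ho).1).1 (m * o ^ (p - 2))
      have h4 : (ga o (m * o ^ (p - 2)) : ℚ) - (ga' o (m * o ^ (p - 2)) : ℚ) =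
          (ArithmeticFunction.moebius o : ℚ) * (((ga 1 (m * o ^ (p - 2)) : ℤ) -
            (ga' 1 (m * o ^ (p - 2)) : ℤ) : ℤ) : ℚ) := by
        exact_mod_cast h3
      rw [← sub_div, h4]
      ring)
  intro m
  have h2 : (ga 1 m : ℤ) - (ga' 1 m : ℤ) = 0 := h1 m
  omega

end Pool.Agent.X209.EQ
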