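import Pool.Agent.X209.DI.Cliff
import Pool.Agent.X209.EQ.Alg

/-!
# Degrees modulo `p` and up to sign over a normal subgroup with cyclic quotient
-/

open scoped Classical BigOperators
open Pool.Agent.Helper884.IC Pool.Agent.Y63.AWC Pool.Agent.X209.DI
open Pool.Agent.Y63.KR (dg dg_spec)

set_option linter.unusedSectionVars false
set_option linter.unusedVariables false

noncomputable section

namespace Pool.Agent.X209.EQ

/-- the degree is prime to `p` and congruent to `m` or `-m` modulo `p` -/
def Dg (p m : ℕ) {J : Type} [Group J] (χ : J → ℂ) : Prop :=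
  ∃ k : ℕ, χ 1 = (k : ℂ) ∧ ¬ p ∣ k ∧ (k ≡ m [MOD p] ∨ p ∣ k + m)

/-- the number of the irreducible characters with this property -/
def num (p : ℕ) (J : Type) [Group J] (m : ℕ) : ℕ :=
  Nat.card {χ : J → ℂ // IsIrrChar χ ∧ Dg p m χ}

lemma Dg_congr {p m m' : ℕ} (h : m ≡ m' [MOD p]) {J : Type} [Group J] (χ : J → ℂ) :
    Dg p m χ ↔ Dg p m' χ := by
  unfold Dg
  refine exists_congr fun k => and_congr Iff.rfl (and_congr Iff.rfl (or_congr ?_ ?_))
  · exact ⟨fun h1 => h1.trans h, fun h1 => h1.trans h.symm⟩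
  · have h1 : k + m ≡ k + m' [MOD p] := Nat.ModEq.add_left k h
    exact ⟨fun h2 => (h1.dvd_iff dvd_rfl).mp h2, fun h2 => (h1.dvd_iff dvd_rfl).mpr h2⟩

lemma dg_scale {p : ℕ} [hp : Fact p.Prime] {o k m : ℕ} (ho : ¬ p ∣ o) :
    (o * k ≡ m [MOD p] ∨ p ∣ o * k + m) ↔
      (k ≡ m * o ^ (p - 2) [MOD p] ∨ p ∣ k + m * o ^ (p - 2)) := by
  have h0 : (o : ZMod p) ≠ 0 := by
    rw [Ne, ZMod.natCast_eq_zero_iff]
    exact ho
  have h1 : (o : ZMod p) ^ (p - 2) * (o : ZMod p) = 1 := by
    rw [← pow_succ]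
    have h2 : p - 2 + 1 = p - 1 := by
      have := hp.out.two_le
      omega
    rw [h2]
    exact ZMod.pow_card_sub_one_eq_one h0
  rw [← ZMod.natCast_eq_natCast_iff, ← ZMod.natCast_eq_natCast_iff, ← ZMod.natCast_eq_zero_iff,
    ← ZMod.natCast_eq_zero_iff]
  push_cast
  refine or_congr ?_ ?_
  · constructor
    · intro h
      rw [← h]
      calc (k : ZMod p) = k * ((o : ZMod p) ^ (p - 2) * o) := by rw [h1, mul_one]
        _ = _ := by ring
    · intro h
      rw [h]
      calc (o : ZMod p) * (m * (o : ZMod p) ^ (p - 2)) = m * ((o : ZMod p) ^ (p - 2) * o) := by ring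
        _ = _ := by rw [h1, mul_one]
  · constructor
    · intro h
      calc (k : ZMod p) + m * (o : ZMod p) ^ (p - 2) =
          (o : ZMod p) ^ (p - 2) * (o * k + m) +
            k * (1 - (o : ZMod p) ^ (p - 2) * o) := by ring
        _ = _ := by rw [h, h1]; ring
    · intro h
      calc (o : ZMod p) * k + m = o * (k + m * (o : ZMod p) ^ (p - 2)) +
          m * (1 - (o : ZMod p) ^ (p - 2) * o) := by ring
        _ = _ := by rw [h, h1]; ring

section

variable {X : Type} [Group X] [Fintype X] (M : Subgroup X) [hM : M.Normal]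

/-- a subgroup above `M` contains `g ^ d` iff its index divides `d` -/
lemma pow_mem_iff {g : X} (hg : ∀ x : X, ∃ i : ℕ, x⁻¹ * g ^ i ∈ M) {S : Subgroup X} (hS : M ≤ S)
    (d : ℕ) : g ^ d ∈ S ↔ S.index ∣ d := by
  have hn : S.Normal := by
    constructor
    intro s hs x
    obtain ⟨i, hi⟩ := hg x
    obtain ⟨j, hj⟩ := hg s
    have h1 : (QuotientGroup.mk x : X ⧸ M) = QuotientGroup.mk g ^ i := QuotientGroup.eq.mpr hi
    have h2 : (QuotientGroup.mk s : X ⧸ M) = QuotientGroup.mk g ^ j := QuotientGroup.eq.mpr hj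
    have h3 : (QuotientGroup.mk (x * s * x⁻¹) : X ⧸ M) = QuotientGroup.mk s := by
      rw [QuotientGroup.mk_mul, QuotientGroup.mk_mul, QuotientGroup.mk_inv, h1, h2]
      have h4 : Commute ((QuotientGroup.mk g : X ⧸ M) ^ i) (QuotientGroup.mk g ^ j) :=
        (Commute.refl _).pow_pow i j
      rw [h4.eq, mul_inv_cancel_right]
    have h4 := QuotientGroup.eq.mp h3
    have h5 := S.mul_mem hs (S.inv_mem (hS h4))
    have e : s * ((x * s * x⁻¹)⁻¹ * s)⁻¹ = x * s * x⁻¹ := by group
    rwa [e] at h5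
  have h1 : orderOf (QuotientGroup.mk g : X ⧸ S) = S.index := by
    rw [Subgroup.index]
    apply orderOf_eq_card_of_forall_mem_zpowers
    intro y
    obtain ⟨x, rfl⟩ := QuotientGroup.mk_surjective y
    obtain ⟨i, hi⟩ := hg x
    refine ⟨i, ?_⟩
    change (QuotientGroup.mk g : X ⧸ S) ^ (i : ℤ) = QuotientGroup.mk x
    rw [zpow_natCast]
    exact (QuotientGroup.eq.mpr (hS hi) :
      (QuotientGroup.mk x : X ⧸ S) = QuotientGroup.mk (g ^ i)).symm
  rw [← h1, orderOf_dvd_iff_pow_eq_one, ← QuotientGroup.mk_pow, QuotientGroup.eq_one_iff]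

lemma orb_card {theta : M → ℂ} : (Orb M theta).card = (St M theta).index := by
  have h1 := card_Orb_mul M theta
  rw [← (St M theta).index_mul_card] at h1
  exact Nat.eq_of_mul_eq_mul_right Nat.card_pos h1

lemma Dg_over {p : ℕ} [hp : Fact p.Prime] {g : X} (hg : ∀ x : X, ∃ i : ℕ, x⁻¹ * g ^ i ∈ M)
    {theta : M → ℂ} (h : IsIrrChar theta) {chi : X → ℂ} (hc : IsIrrChar chi)
    (h1 : mult M chi theta ≠ 0) (m : ℕ) :
    Dg p m chi ↔ (¬ p ∣ (Orb M theta).card ∧ Dg p (m * (Orb M theta).card ^ (p - 2)) theta) := by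
  obtain ⟨hd1, hd2⟩ := dg_spec hc
  obtain ⟨hd3, hd4⟩ := dg_spec h
  have h2 := deg_eq M hc h h1 hd1 hd3
  have h3 : mult M chi theta = 1 := le_antisymm (mult_le_one M hg h hc) (Nat.pos_of_ne_zero h1)
  rw [h3, mul_one] at h2
  constructor
  · rintro ⟨k, hk, hpk, hkm⟩
    have h4 : k = (Orb M theta).card * dg theta := by
      rw [← h2]
      have : (k : ℂ) = (dg chi : ℂ) := hk.symm.trans hd1
      exact_mod_cast this
    rw [h4] at hpk hkm
    have h5 : ¬ p ∣ (Orb M theta).card := fun h6 => hpk (h6.mul_right _)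
    have h6 : ¬ p ∣ dg theta := fun h6 => hpk (h6.mul_left _)
    exact ⟨h5, dg theta, hd3, h6, (dg_scale h5).mp hkm⟩
  · rintro ⟨h5, k, hk, hpk, hkm⟩
    have h4 : k = dg theta := by
      have : (k : ℂ) = (dg theta : ℂ) := hk.symm.trans hd3
      exact_mod_cast this
    subst h4
    refine ⟨(Orb M theta).card * dg theta, ?_, ?_, (dg_scale h5).mpr hkm⟩
    · rw [hd1, h2]
    · rw [hp.out.dvd_mul]
      tauto

/-- the number of the characters of `M` with orbit length `o` and the given degree -/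
def gaM (p o m : ℕ) : ℕ :=
  ((Irr M).filter fun theta => (Orb M theta).card = o ∧ Dg p m theta).card

lemma index_pos : 0 < M.index := Nat.pos_of_ne_zero Subgroup.index_ne_zero_of_finite

lemma orb_dvd {theta : M → ℂ} (h : IsIrrChar theta) : (Orb M theta).card ∣ M.index := by
  rw [orb_card]
  exact Subgroup.index_dvd_of_le (le_St M h.isClass)

theorem num_formula {p : ℕ} [hp : Fact p.Prime] {g : X}
    (hg : ∀ x : X, ∃ i : ℕ, x⁻¹ * g ^ i ∈ M) (m : ℕ) :
    ((num p X m : ℚ)) / (M.index : ℚ) =
      ∑ o ∈ M.index.divisors.filter (fun o => ¬ p ∣ o),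
        (gaM M p o (m * o ^ (p - 2)) : ℚ) / (o : ℚ) ^ 2 := by
  have h1 := double_count M (fun chi => Dg p m chi) (fun theta => ¬ p ∣ (Orb M theta).card ∧
    Dg p (m * (Orb M theta).card ^ (p - 2)) theta)
    (fun chi theta hc h hne => Dg_over M hg h hc hne m)
  have hnum : ((Irr X).filter fun chi => Dg p m chi).card = num p X m := by
    unfold num
    rw [← Fintype.card_coe, ← Nat.card_eq_fintype_card]
    exact Nat.card_congr (Equiv.subtypeEquivRight fun χ => by
      rw [Finset.mem_filter, mem_Irr])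
  rw [hnum] at h1
  have hX : (Nat.card X : ℚ) ≠ 0 := by exact_mod_cast Nat.card_pos.ne'
  have hMc : (Nat.card M : ℚ) ≠ 0 := by exact_mod_cast Nat.card_pos.ne'
  have hidx : (M.index : ℚ) * (Nat.card M : ℚ) = (Nat.card X : ℚ) := by
    exact_mod_cast M.index_mul_card
  have hi0 : (M.index : ℚ) ≠ 0 := by exact_mod_cast (index_pos M).ne'
  have h2 : ∑ theta ∈ (Irr M).filter (fun theta => ¬ p ∣ (Orb M theta).card ∧
      Dg p (m * (Orb M theta).card ^ (p - 2)) theta), (1 : ℚ) / ((Orb M theta).card : ℚ) ^ 2 =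
      (num p X m : ℚ) / (M.index : ℚ) := by
    have h3 : ((Nat.card M : ℚ) * ∑ theta ∈ (Irr M).filter (fun theta => ¬ p ∣ (Orb M theta).card ∧
        Dg p (m * (Orb M theta).card ^ (p - 2)) theta), ((nov M theta : ℚ) *
          (Nat.card (St M theta) : ℚ))) = (Nat.card M : ℚ) * ((Nat.card X : ℚ) * (num p X m : ℚ)) := by
      congr 1
      have h1' := congrArg (fun n : ℕ => (n : ℚ)) h1
      simp only [Nat.cast_sum, Nat.cast_mul] at h1'
      rw [← h1']
      exact Finset.sum_congr (by ext t; simp only [Finset.mem_filter]) fun _ _ => rfl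
    rw [Finset.mul_sum] at h3
    have h4 : ∀ theta ∈ (Irr M).filter (fun theta => ¬ p ∣ (Orb M theta).card ∧
        Dg p (m * (Orb M theta).card ^ (p - 2)) theta),
        (Nat.card M : ℚ) * ((nov M theta : ℚ) * (Nat.card (St M theta) : ℚ)) =
          (Nat.card X : ℚ) ^ 2 * (1 / ((Orb M theta).card : ℚ) ^ 2) := by
      intro theta ht
      rw [Finset.mem_filter, mem_Irr] at ht
      have h5 : (Nat.card M : ℚ) * (nov M theta : ℚ) = (Nat.card (St M theta) : ℚ) := by
        exact_mod_cast nov_eq M hg ht.1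
      have h6 : ((Orb M theta).card : ℚ) * (Nat.card (St M theta) : ℚ) = (Nat.card X : ℚ) := by
        exact_mod_cast card_Orb_mul M theta
      have h7 : ((Orb M theta).card : ℚ) ≠ 0 := by
        intro h8
        rw [h8, zero_mul] at h6
        exact hX h6.symm
      rw [← mul_assoc, h5, ← h6]
      field_simp
    rw [Finset.sum_congr rfl h4, ← Finset.mul_sum] at h3
    have h5 : (Nat.card X : ℚ) ^ 2 ≠ 0 := pow_ne_zero 2 hX
    apply mul_left_cancel₀ h5
    rw [h3, ← hidx]
    field_simp
  rw [← h2]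
  rw [← Finset.sum_fiberwise_of_maps_to (s := (Irr M).filter (fun theta =>
    ¬ p ∣ (Orb M theta).card ∧ Dg p (m * (Orb M theta).card ^ (p - 2)) theta))
    (t := M.index.divisors.filter (fun o => ¬ p ∣ o)) (g := fun theta => (Orb M theta).card)]
  · refine Finset.sum_congr rfl fun o ho => ?_
    have hpo := (Finset.mem_filter.mp ho).2
    rw [Finset.sum_congr rfl (g := fun _ => (1 : ℚ) / (o : ℚ) ^ 2)]
    · rw [Finset.sum_const, nsmul_eq_mul]
      have h3 : (((Irr M).filter (fun theta => ¬ p ∣ (Orb M theta).card ∧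
          Dg p (m * (Orb M theta).card ^ (p - 2)) theta)).filter
            (fun theta => (Orb M theta).card = o)).card = gaM M p o (m * o ^ (p - 2)) := by
        unfold gaM
        congr 1
        ext theta
        simp only [Finset.mem_filter]
        constructor
        · rintro ⟨⟨h4, h5, h6⟩, h7⟩
          rw [h7] at h6
          exact ⟨h4, h7, h6⟩
        · rintro ⟨h4, h5, h6⟩
          rw [← h5] at h6 hpo
          exact ⟨⟨h4, hpo, h6⟩, h5⟩
      rw [h3]
      ring
    · intro theta ht
      rw [(Finset.mem_filter.mp ht).2]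
  · intro theta ht
    rw [Finset.mem_filter, mem_Irr] at ht
    rw [Finset.mem_filter, Nat.mem_divisors]
    exact ⟨⟨orb_dvd M ht.1, (index_pos M).ne'⟩, ht.2.1⟩

theorem fix_formula (p : ℕ) {g : X} (hg : ∀ x : X, ∃ i : ℕ, x⁻¹ * g ^ i ∈ M) {d : ℕ}
    (hd : d ≠ 0) (m : ℕ) :
    ((Irr M).filter fun theta => Dg p m theta ∧ g ^ d ∈ St M theta).card =
      ∑ o ∈ d.divisors, gaM M p o m := by
  rw [Finset.card_eq_sum_card_fiberwise (f := fun theta => (Orb M theta).card)
    (t := d.divisors)]
  · refine Finset.sum_congr rfl fun o ho => ?_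
    unfold gaM
    congr 1
    ext theta
    simp only [Finset.mem_filter]
    constructor
    · rintro ⟨⟨h4, h5, h6⟩, h7⟩
      exact ⟨h4, h7, h5⟩
    · rintro ⟨h4, h5, h6⟩
      refine ⟨⟨h4, h6, ?_⟩, h5⟩
      rw [pow_mem_iff M hg (le_St M (mem_Irr.mp h4).isClass), ← orb_card, h5]
      exact Nat.dvd_of_mem_divisors ho
  · intro theta ht
    have ht' := Finset.mem_filter.mp (Finset.mem_coe.mp ht)
    rw [Finset.mem_coe, Nat.mem_divisors]
    refine ⟨?_, hd⟩
    have h1 := ht'.2.2
    rwa [pow_mem_iff M hg (le_St M (mem_Irr.mp ht'.1).isClass), ← orb_card] at h1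

end

/-! ### transport -/

/-- `θ` is fixed by the conjugation by `e` -/
def Fx {A E : Type} [Group A] [Group E] (i : A →* E) (e : E) (θ : A → ℂ) : Prop :=
  ∀ a b : A, i b = e * i a * e⁻¹ → θ b = θ a

/-- the number of the fixed irreducible characters with the given degree -/
def cf {A E : Type} [Group A] [Group E] (p : ℕ) (i : A →* E) (e : E) (m : ℕ) : ℕ :=
  Nat.card {θ : A → ℂ // IsIrrChar θ ∧ Dg p m θ ∧ Fx i e θ}

lemma Dg_equiv {J K : Type} [Group J] [Group K] (e : J ≃* K) (p m : ℕ) (χ : K → ℂ) :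
    Dg p m (fun x => χ (e x)) ↔ Dg p m χ := by
  unfold Dg
  simp only [map_one]

lemma num_equiv {J K : Type} [Group J] [Group K] (e : J ≃* K) (p m : ℕ) :
    num p J m = num p K m := by
  unfold num
  refine Nat.card_congr
    { toFun := fun χ => ⟨fun x => χ.1 (e.symm x), irr_comp e.symm χ.2.1,
        (Dg_equiv e.symm p m χ.1).mpr χ.2.2⟩
      invFun := fun χ => ⟨fun x => χ.1 (e x), irr_comp e χ.2.1, (Dg_equiv e p m χ.1).mpr χ.2.2⟩
      left_inv := fun χ => Subtype.ext (funext fun x => by simp)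
      right_inv := fun χ => Subtype.ext (funext fun x => by simp) }

section

variable {A X : Type} [Group A] [Group X] [Fintype X] (i : A →* X) (hi : Function.Injective i)
  [hn : i.range.Normal]

include hi in
lemma cf_eq (p : ℕ) (e : X) (m : ℕ) : cf p i e m =
    ((Irr i.range).filter fun theta => Dg p m theta ∧ e ∈ St i.range theta).card := by
  let E := MonoidHom.ofInjective hi
  have hE : ∀ a, ((E a : i.range) : X) = i a := fun a => rfl
  unfold cf
  rw [← Fintype.card_coe, ← Nat.card_eq_fintype_card]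
  have key : ∀ θ : i.range → ℂ, Fx i e (fun x => θ (E x)) ↔ e ∈ St i.range θ := by
    intro θ
    rw [mem_St]
    constructor
    · intro h
      funext u
      obtain ⟨a, rfl⟩ := E.surjective u
      obtain ⟨b, hb⟩ := E.surjective (MulAut.conjNormal e (E a))
      have h1 := h a b (by
        rw [← hE, ← hE, hb, MulAut.conjNormal_apply])
      simp only [cj]
      rw [← hb]
      exact h1
    · intro h a b hab
      have h1 := congrFun h (E a)
      simp only [cj] at h1
      have h2 : MulAut.conjNormal e (E a) = E b := by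
        apply Subtype.ext
        rw [MulAut.conjNormal_apply, hE, hE, hab]
      rw [h2] at h1
      exact h1
  refine Nat.card_congr
    { toFun := fun θ => ⟨fun x => θ.1 (E.symm x), by
        rw [Finset.mem_filter, mem_Irr]
        refine ⟨irr_comp E.symm θ.2.1, (Dg_equiv E.symm p m θ.1).mpr θ.2.2.1, ?_⟩
        rw [← key]
        have : (fun x => (fun x => θ.1 (E.symm x)) (E x)) = θ.1 := funext fun x => by simp
        rw [this]
        exact θ.2.2.2⟩
      invFun := fun θ => ⟨fun x => θ.1 (E x), by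
        have h := Finset.mem_filter.mp θ.2
        rw [mem_Irr] at h
        exact ⟨irr_comp E h.1, (Dg_equiv E p m θ.1).mpr h.2.1, (key θ.1).mpr h.2.2⟩⟩
      left_inv := fun χ => Subtype.ext (funext fun x => by simp)
      right_inv := fun χ => Subtype.ext (funext fun x => by simp) }

end

lemma gaM_congr {X : Type} [Group X] [Fintype X] (M : Subgroup X) [hM : M.Normal] (p o : ℕ)
    {m m' : ℕ} (h : m ≡ m' [MOD p]) : gaM M p o m = gaM M p o m' := by
  unfold gaM
  congr 1
  ext theta
  simp only [Finset.mem_filter, Dg_congr h]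

section pair

variable {A X A' X' : Type} [Group A] [Group X] [Group A'] [Group X'] [Fintype X] [Fintype X']
  (i : A →* X) (hi : Function.Injective i) [hn : i.range.Normal]
  (i' : A' →* X') (hi' : Function.Injective i') [hn' : i'.range.Normal]
  {p : ℕ} [hp : Fact p.Prime] {g : X} {g' : X'}
  (hg : ∀ x : X, ∃ k : ℕ, x⁻¹ * g ^ k ∈ i.range)
  (hg' : ∀ x : X', ∃ k : ℕ, x⁻¹ * g' ^ k ∈ i'.range)
  (hpow : ∀ d : ℕ, g ^ d ∈ i.range ↔ g' ^ d ∈ i'.range)

include hg hg' hpow in
lemma idx_eq : i.range.index = i'.range.index := by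
  apply Nat.dvd_antisymm
  · rw [← pow_mem_iff i.range hg le_rfl, hpow, pow_mem_iff i'.range hg' le_rfl]
  · rw [← pow_mem_iff i'.range hg' le_rfl, ← hpow, pow_mem_iff i.range hg le_rfl]

include hi hi' hg hg' hpow in
/-- **The step.** -/
theorem step (hnum : ∀ m, num p X m = num p X' m)
    (hprop : ∀ d, d ∣ i.range.index → d ≠ 1 → ∀ m, cf p i (g ^ d) m = cf p i' (g' ^ d) m) (m : ℕ) :
    cf p i g m = cf p i' g' m := by
  have hidx := idx_eq i i' hg hg' hpow
  have h0 : i.range.index ≠ 0 := (index_pos i.range).ne'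
  have h1 := system (p := p) hp.out.pos (by
    intro h
    exact hp.out.one_lt.ne' (Nat.dvd_one.mp h)) h0
    (fun o m => gaM i.range p o m) (fun o m => gaM i'.range p o m)
    (fun o m m' h => gaM_congr i.range p o h) (fun o m m' h => gaM_congr i'.range p o h) ?_ ?_ m
  · have h2 := fix_formula i.range p hg one_ne_zero m
    have h3 := fix_formula i'.range p hg' one_ne_zero m
    rw [Nat.divisors_one, Finset.sum_singleton, pow_one, ← cf_eq i hi] at h2
    rw [Nat.divisors_one, Finset.sum_singleton, pow_one, ← cf_eq i' hi'] at h3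
    rw [h2, h3]
    exact h1
  · intro d hd hd1 m
    have hd0 : d ≠ 0 := fun h => h0 (by rw [h] at hd; exact zero_dvd_iff.mp hd)
    have h2 := fix_formula i.range p hg hd0 m
    have h3 := fix_formula i'.range p hg' hd0 m
    rw [← cf_eq i hi] at h2
    rw [← cf_eq i' hi'] at h3
    rw [← h2, ← h3]
    exact hprop d hd hd1 m
  · intro m
    have h2 := num_formula i.range (p := p) hg m
    have h3 := num_formula i'.range (p := p) hg' m
    rw [← h2, hidx, ← h3, hnum]

include hi hi' hg hg' hpow in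
/-- **The converse.** -/
theorem step' (hprop : ∀ d, d ∣ i.range.index → ∀ m, cf p i (g ^ d) m = cf p i' (g' ^ d) m)
    (m : ℕ) : num p X m = num p X' m := by
  have hidx := idx_eq i i' hg hg' hpow
  have h0 : i.range.index ≠ 0 := (index_pos i.range).ne'
  have h1 : ∀ o, o ∣ i.range.index → ∀ m, gaM i.range p o m = gaM i'.range p o m := by
    intro o
    induction o using Nat.strong_induction_on with
    | _ o ih =>
      intro ho m
      have ho0 : o ≠ 0 := fun h => h0 (by rw [h] at ho; exact zero_dvd_iff.mp ho)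
      have h2 := fix_formula i.range p hg ho0 m
      have h3 := fix_formula i'.range p hg' ho0 m
      rw [← cf_eq i hi, ← Finset.insert_erase (Nat.mem_divisors_self o ho0),
        Finset.sum_insert (Finset.notMem_erase _ _)] at h2
      rw [← cf_eq i' hi', ← Finset.insert_erase (Nat.mem_divisors_self o ho0),
        Finset.sum_insert (Finset.notMem_erase _ _)] at h3
      have h4 := hprop o ho m
      have h5 : ∑ x ∈ o.divisors.erase o, gaM i.range p x m =
          ∑ x ∈ o.divisors.erase o, gaM i'.range p x m := by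
        refine Finset.sum_congr rfl fun x hx => ?_
        have h6 := Finset.mem_erase.mp hx
        have h7 := Nat.dvd_of_mem_divisors h6.2
        exact ih x (lt_of_le_of_ne (Nat.le_of_dvd (Nat.pos_of_ne_zero ho0) h7) h6.1)
          (h7.trans ho) m
      omega
  have h2 := num_formula i.range (p := p) hg m
  have h3 := num_formula i'.range (p := p) hg' m
  have h4 : ((num p X m : ℚ)) / (i.range.index : ℚ) = ((num p X' m : ℚ)) / (i.range.index : ℚ) := by
    rw [h2]
    rw [← hidx] at h3
    rw [h3]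
    refine Finset.sum_congr rfl fun o ho => ?_
    rw [h1 o (Nat.dvd_of_mem_divisors (Finset.mem_filter.mp ho).1)]
  have h5 : (i.range.index : ℚ) ≠ 0 := by exact_mod_cast h0
  rw [div_left_inj' h5] at h4
  exact_mod_cast h4

end pair

end Pool.Agent.X209.EQ
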