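import Pool.Agent.X209.EQ.Grp
import Pool.Agent.X209.CC.Fin

/-!
# The equivariant bijections
-/

open scoped Classical BigOperators
open Pool.Agent.Helper884.IC Pool.Agent.Y63.AWC Pool.Agent.X209.DI
open Pool.Agent.X209.CC (IrrP mark burnside finite_IrrP)

set_option linter.unusedSectionVars false
set_option linter.unusedVariables false

noncomputable section

namespace Pool.Agent.X209.EQ

/-- the class of the degree modulo `p` and up to sign -/
def lab (p : ℕ) (c : ℂ) : Set (ZMod p) :=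
  {x | ∃ m : ℕ, c = (m : ℂ) ∧ (x = (m : ZMod p) ∨ x = -(m : ZMod p))}

theorem lab_nat (p m : ℕ) : lab p (m : ℂ) = {(m : ZMod p), -(m : ZMod p)} := by
  ext x
  constructor
  · rintro ⟨k, hk, h⟩
    have : m = k := by exact_mod_cast hk
    subst this
    exact h
  · intro h
    exact ⟨m, rfl, h⟩

theorem lab_eq (p m n : ℕ) : lab p (n : ℂ) = lab p (m : ℂ) ↔ (m ≡ n [MOD p] ∨ p ∣ m + n) := by
  rw [lab_nat, lab_nat]
  have e1 : m ≡ n [MOD p] ↔ (m : ZMod p) = (n : ZMod p) := (ZMod.natCast_eq_natCast_iff m n p).symm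
  have e2 : p ∣ m + n ↔ (m : ZMod p) = -(n : ZMod p) := by
    rw [← ZMod.natCast_eq_zero_iff, Nat.cast_add, add_eq_zero_iff_eq_neg]
  rw [e1, e2]
  constructor
  · intro h
    have h1 : (m : ZMod p) ∈ ({(m : ZMod p), -(m : ZMod p)} : Set (ZMod p)) := Or.inl rfl
    rw [← h] at h1
    exact h1
  · rintro (h | h)
    · rw [h]
    · rw [h, neg_neg, Set.pair_comm]

/-- the degrees of `χ` and `f(χ)` are congruent modulo `p` up to sign -/
def CongDeg {p : ℕ} {J K : Type} [Group J] [Group K] (f : IrrP p J → IrrP p K) : Prop :=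
  ∀ χ, ∃ m n : ℕ, χ.1 1 = (m : ℂ) ∧ (f χ).1 1 = (n : ℂ) ∧ (m ≡ n [MOD p] ∨ p ∣ m + n)

lemma congDeg_iff {p : ℕ} {J K : Type} [Group J] [Group K] {f : IrrP p J → IrrP p K} :
    CongDeg f ↔ ∀ χ, lab p ((f χ).1 1) = lab p (χ.1 1) := by
  refine forall_congr' fun χ => ?_
  constructor
  · rintro ⟨m, n, hm, hn, h⟩
    rw [hm, hn]
    exact (lab_eq p m n).mpr h
  · intro h
    obtain ⟨m, hm, _⟩ := χ.2.2
    obtain ⟨n, hn, _⟩ := (f χ).2.2
    rw [hm, hn] at h
    exact ⟨m, n, hm, hn, (lab_eq p m n).mp h⟩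

lemma Dg_iff {p : ℕ} {J : Type} [Group J] (χ : IrrP p J) (m : ℕ) :
    Dg p m χ.1 ↔ lab p (χ.1 1) = lab p (m : ℂ) := by
  obtain ⟨k, hk, hpk⟩ := χ.2.2
  constructor
  · rintro ⟨k', hk', _, h⟩
    rw [hk', eq_comm]
    exact (lab_eq p k' m).mpr h
  · intro h
    rw [hk, eq_comm] at h
    exact ⟨k, hk, hpk, (lab_eq p k m).mp h⟩

lemma num_eq (p : ℕ) (J : Type) [Group J] (m : ℕ) :
    num p J m = Nat.card {χ : IrrP p J // lab p (χ.1 1) = lab p (m : ℂ)} := by
  unfold num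
  refine Nat.card_congr
    { toFun := fun χ => ⟨⟨χ.1, χ.2.1, ?_⟩, ?_⟩
      invFun := fun χ => ⟨χ.1.1, χ.1.2.1, (Dg_iff χ.1 m).mpr χ.2⟩
      left_inv := fun χ => rfl
      right_inv := fun χ => rfl }
  · obtain ⟨k, hk, hpk, _⟩ := χ.2.2
    exact ⟨k, hk, hpk⟩
  · have h := χ.2.2
    have hex : ∃ m : ℕ, χ.1 1 = (m : ℂ) ∧ ¬ p ∣ m := by
      obtain ⟨k, hk, hpk, _⟩ := χ.2.2
      exact ⟨k, hk, hpk⟩
    exact (Dg_iff ⟨χ.1, χ.2.1, hex⟩ m).mp h

/-- a bijection with congruent degrees exists iff the numbers agree -/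
theorem bij_iff {p : ℕ} {J K : Type} [Group J] [Group K] [Finite J] [Finite K] :
    (∃ f : IrrP p J ≃ IrrP p K, CongDeg f) ↔ ∀ m, num p J m = num p K m := by
  constructor
  · rintro ⟨f, hf⟩ m
    rw [congDeg_iff] at hf
    rw [num_eq, num_eq]
    exact Nat.card_congr (f.subtypeEquiv fun χ => by rw [hf])
  · intro h
    have key : ∀ l : Set (ZMod p), Nonempty
        ({χ : IrrP p J // lab p (χ.1 1) = l} ≃ {ψ : IrrP p K // lab p (ψ.1 1) = l}) := by
      intro l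
      by_cases hl : ∃ m : ℕ, l = lab p (m : ℂ)
      · obtain ⟨m, rfl⟩ := hl
        have h1 := h m
        rw [num_eq, num_eq] at h1
        exact Finite.card_eq.mp h1
      · have h1 : ∀ (H : Type) [Group H], IsEmpty {χ : IrrP p H // lab p (χ.1 1) = l} := by
          intro H _
          constructor
          rintro ⟨χ, hχ⟩
          obtain ⟨k, hk, _⟩ := χ.2.2
          rw [hk] at hχ
          exact hl ⟨k, hχ.symm⟩
        have := h1 J
        have := h1 K
        exact ⟨Equiv.equivOfIsEmpty _ _⟩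
    let F := fun l => (key l).some
    let f : IrrP p J ≃ IrrP p K := Equiv.ofFiberEquiv (f := fun χ : IrrP p J => lab p (χ.1 1))
      (g := fun ψ : IrrP p K => lab p (ψ.1 1)) F
    refine ⟨f, ?_⟩
    rw [congDeg_iff]
    intro χ
    exact Equiv.ofFiberEquiv_map F χ

section

variable {p : ℕ} [hp : Fact p.Prime] {E : Type} [Group E] [Finite E] {G : Subgroup E}
  [hG : G.Normal]

/-- `f` commutes with the conjugations by the elements of the normaliser of `P` in `E` -/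
def EquiE (P : Subgroup G) (f : IrrP p G → IrrP p (Subgroup.normalizer (P : Set G))) : Prop :=
  ∀ e ∈ NE P, ∀ χ ψ : IrrP p G, (∀ x y : G, (y : E) = e * x * e⁻¹ → ψ.1 y = χ.1 x) →
    ∀ x y : Subgroup.normalizer (P : Set G), ((y : G) : E) = e * ((x : G) : E) * e⁻¹ →
      (f ψ).1 y = (f χ).1 x

/-- the conjugation on the normaliser -/
def cjN (P : Subgroup G) (e : NE P) :
    Subgroup.normalizer (P : Set G) ≃* Subgroup.normalizer (P : Set G) where
  toFun x := ⟨MulAut.conjNormal (e : E) x.1, by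
    rw [← mem_NE, MulAut.conjNormal_apply]
    exact Subgroup.mul_mem _ (Subgroup.mul_mem _ e.2 (mem_NE.mpr x.2)) (Subgroup.inv_mem _ e.2)⟩
  invFun x := ⟨MulAut.conjNormal (e : E)⁻¹ x.1, by
    rw [← mem_NE, MulAut.conjNormal_apply]
    exact Subgroup.mul_mem _ (Subgroup.mul_mem _ (Subgroup.inv_mem _ e.2) (mem_NE.mpr x.2))
      (Subgroup.inv_mem _ (Subgroup.inv_mem _ e.2))⟩
  left_inv x := by
    apply Subtype.ext
    apply Subtype.ext
    simp only [MulAut.conjNormal_apply]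
    group
  right_inv x := by
    apply Subtype.ext
    apply Subtype.ext
    simp only [MulAut.conjNormal_apply]
    group
  map_mul' x y := by
    apply Subtype.ext
    simp only [Subgroup.coe_mul, map_mul]

lemma cjN_coe (P : Subgroup G) (e : NE P) (x : Subgroup.normalizer (P : Set G)) :
    (((cjN P e x : Subgroup.normalizer (P : Set G)) : G) : E) = e * ((x : G) : E) * (e : E)⁻¹ := by
  change ((MulAut.conjNormal (e : E) x.1 : G) : E) = _
  rw [MulAut.conjNormal_apply]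

/-- the action on the characters of `G` -/
def actG (p : ℕ) (P : Subgroup G) : MulAction (NE P) (IrrP p G) where
  smul e χ := ⟨fun x => χ.1 (MulAut.conjNormal (e : E)⁻¹ x),
    irr_comp (MulAut.conjNormal (e : E)⁻¹) χ.2.1, by
    simp only [map_one]
    exact χ.2.2⟩
  one_smul χ := by
    apply Subtype.ext
    funext x
    change χ.1 (MulAut.conjNormal ((1 : NE P) : E)⁻¹ x) = χ.1 x
    simp
  mul_smul e e' χ := by
    apply Subtype.ext
    funext x
    change χ.1 (MulAut.conjNormal (((e * e' : NE P) : E))⁻¹ x) =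
      χ.1 (MulAut.conjNormal (e' : E)⁻¹ (MulAut.conjNormal (e : E)⁻¹ x))
    rw [Subgroup.coe_mul, mul_inv_rev, map_mul]
    rfl

/-- the action on the characters of the normaliser -/
def actN (p : ℕ) (P : Subgroup G) :
    MulAction (NE P) (IrrP p (Subgroup.normalizer (P : Set G))) where
  smul e χ := ⟨fun x => χ.1 (cjN P e⁻¹ x), irr_comp (cjN P e⁻¹) χ.2.1, by
    simp only [map_one]
    exact χ.2.2⟩
  one_smul χ := by
    apply Subtype.ext
    funext x
    change χ.1 (cjN P (1 : NE P)⁻¹ x) = χ.1 x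
    refine congrArg χ.1 ?_
    apply Subtype.ext
    apply Subtype.ext
    rw [cjN_coe]
    simp
  mul_smul e e' χ := by
    apply Subtype.ext
    funext x
    change χ.1 (cjN P (e * e')⁻¹ x) = χ.1 (cjN P e'⁻¹ (cjN P e⁻¹ x))
    refine congrArg χ.1 ?_
    apply Subtype.ext
    apply Subtype.ext
    rw [cjN_coe, cjN_coe, cjN_coe]
    simp only [mul_inv_rev, Subgroup.coe_mul, InvMemClass.coe_inv]
    group

lemma fixG_iff (P : Subgroup G) (e : NE P) (χ : IrrP p G) :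
    (actG p P).toSMul.smul e χ = χ ↔ Fx G.subtype (e : E) χ.1 := by
  constructor
  · intro h a b hab
    have h1 := congrFun (congrArg Subtype.val h) b
    change χ.1 (MulAut.conjNormal (e : E)⁻¹ b) = χ.1 b at h1
    rw [← h1]
    refine congrArg χ.1 ?_
    apply Subtype.ext
    rw [MulAut.conjNormal_apply]
    have hab' : (b : E) = e * a * (e : E)⁻¹ := hab
    rw [hab']
    group
  · intro h
    apply Subtype.ext
    funext x
    change χ.1 (MulAut.conjNormal (e : E)⁻¹ x) = χ.1 x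
    refine (h _ _ ?_).symm
    change (x : E) = e * ((MulAut.conjNormal (e : E)⁻¹ x : G) : E) * (e : E)⁻¹
    rw [MulAut.conjNormal_apply]
    group

lemma fixN_iff (P : Subgroup G) (e : NE P) (χ : IrrP p (Subgroup.normalizer (P : Set G))) :
    (actN p P).toSMul.smul e χ = χ ↔ Fx (iN P) (e : E) χ.1 := by
  constructor
  · intro h a b hab
    have h1 := congrFun (congrArg Subtype.val h) b
    change χ.1 (cjN P e⁻¹ b) = χ.1 b at h1
    rw [← h1]
    refine congrArg χ.1 ?_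
    apply Subtype.ext
    apply Subtype.ext
    rw [cjN_coe]
    have hab' : ((b : G) : E) = e * ((a : G) : E) * (e : E)⁻¹ := hab
    rw [hab', InvMemClass.coe_inv]
    group
  · intro h
    apply Subtype.ext
    funext x
    change χ.1 (cjN P e⁻¹ x) = χ.1 x
    refine (h _ _ ?_).symm
    rw [iN_apply, iN_apply, cjN_coe, InvMemClass.coe_inv]
    group

lemma cfG_eq (P : Subgroup G) (e : NE P) (m : ℕ) : cf p G.subtype (e : E) m =
    Nat.card {χ : IrrP p G // lab p (χ.1 1) = lab p (m : ℂ) ∧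
      (actG p P).toSMul.smul e χ = χ} := by
  unfold cf
  refine Nat.card_congr
    { toFun := fun χ => ⟨⟨χ.1, χ.2.1, ?_⟩, ?_, ?_⟩
      invFun := fun χ => ⟨χ.1.1, χ.1.2.1, (Dg_iff χ.1 m).mpr χ.2.1, (fixG_iff P e χ.1).mp χ.2.2⟩
      left_inv := fun χ => rfl
      right_inv := fun χ => rfl }
  · obtain ⟨k, hk, hpk, _⟩ := χ.2.2.1
    exact ⟨k, hk, hpk⟩
  · have hex : ∃ m : ℕ, χ.1 1 = (m : ℂ) ∧ ¬ p ∣ m := by
      obtain ⟨k, hk, hpk, _⟩ := χ.2.2.1
      exact ⟨k, hk, hpk⟩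
    exact (Dg_iff ⟨χ.1, χ.2.1, hex⟩ m).mp χ.2.2.1
  · exact (fixG_iff P e _).mpr χ.2.2.2

lemma cfN_eq (P : Subgroup G) (e : NE P) (m : ℕ) : cf p (iN P) (e : E) m =
    Nat.card {χ : IrrP p (Subgroup.normalizer (P : Set G)) // lab p (χ.1 1) = lab p (m : ℂ) ∧
      (actN p P).toSMul.smul e χ = χ} := by
  unfold cf
  refine Nat.card_congr
    { toFun := fun χ => ⟨⟨χ.1, χ.2.1, ?_⟩, ?_, ?_⟩
      invFun := fun χ => ⟨χ.1.1, χ.1.2.1, (Dg_iff χ.1 m).mpr χ.2.1, (fixN_iff P e χ.1).mp χ.2.2⟩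
      left_inv := fun χ => rfl
      right_inv := fun χ => rfl }
  · obtain ⟨k, hk, hpk, _⟩ := χ.2.2.1
    exact ⟨k, hk, hpk⟩
  · have hex : ∃ m : ℕ, χ.1 1 = (m : ℂ) ∧ ¬ p ∣ m := by
      obtain ⟨k, hk, hpk, _⟩ := χ.2.2.1
      exact ⟨k, hk, hpk⟩
    exact (Dg_iff ⟨χ.1, χ.2.1, hex⟩ m).mp χ.2.2.1
  · exact (fixN_iff P e _).mpr χ.2.2.2

/-- a subgroup of `NE P` is generated by one element modulo `G`, if `E/G` is cyclic -/
lemma gen_mod (hE : ∃ e₀ : E, G ⊔ Subgroup.zpowers e₀ = ⊤) (P : Subgroup G)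
    (U : Subgroup (NE P)) : ∃ u ∈ U, ∀ x ∈ U, ∃ k : ℕ, (x : E)⁻¹ * (u : E) ^ k ∈ G := by
  obtain ⟨e₀, he₀⟩ := hE
  have hc : IsCyclic (E ⧸ G) := by
    refine ⟨QuotientGroup.mk e₀, fun y => ?_⟩
    obtain ⟨x, rfl⟩ := QuotientGroup.mk_surjective y
    obtain ⟨k, hk⟩ := sup_gen (G := G) (e := e₀) (x := x) (by rw [he₀]; trivial)
    refine ⟨k, ?_⟩
    change (QuotientGroup.mk e₀ : E ⧸ G) ^ (k : ℤ) = QuotientGroup.mk x
    rw [zpow_natCast]
    exact (QuotientGroup.eq.mpr hk :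
      (QuotientGroup.mk x : E ⧸ G) = QuotientGroup.mk (e₀ ^ k)).symm
  have hU : IsCyclic (U.map ((QuotientGroup.mk' G).comp (NE P).subtype)) := inferInstance
  obtain ⟨⟨y, hy⟩, hgen⟩ := hU.exists_generator
  obtain ⟨u, huU, rfl⟩ := hy
  refine ⟨u, huU, fun x hx => ?_⟩
  have h1 := hgen ⟨_, ⟨x, hx, rfl⟩⟩
  rw [← mem_powers_iff_mem_zpowers] at h1
  obtain ⟨k, hk⟩ := h1
  refine ⟨k, ?_⟩
  have h2 := congrArg Subtype.val hk
  exact QuotientGroup.eq.mp (h2.symm : (QuotientGroup.mk (x : E) : E ⧸ G) = QuotientGroup.mk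
    ((u : E) ^ k))

end

end Pool.Agent.X209.EQ
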