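import Pool.Agent.X209.EQ.Fin

/-!
# The main theorems
-/

open scoped Classical BigOperators
open Pool.Agent.Helper884.IC Pool.Agent.Y63.AWC Pool.Agent.X209.DI
open Pool.Agent.X209.CC (IrrP mark burnside finite_IrrP)

set_option linter.unusedSectionVars false
set_option linter.unusedVariables false

noncomputable section

namespace Pool.Agent.X209.EQ

section

variable {p : ℕ} [hp : Fact p.Prime] {E : Type} [Group E] [Finite E] {G : Subgroup E}
  [hG : G.Normal]

/-- the elements of `G` fix the characters of `G` -/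
lemma fixG_of_mem (P : Subgroup G) (e : NE P) (he : (e : E) ∈ G) (χ : IrrP p G) :
    (actG p P).toSMul.smul e χ = χ := by
  rw [fixG_iff]
  intro a b hab
  have h1 : b = (⟨e, he⟩ : G) * a * (⟨e, he⟩ : G)⁻¹ := Subtype.ext hab
  have : Fintype G := Fintype.ofFinite _
  rw [h1, χ.2.1.isClass]

lemma fixN_of_mem (P : Subgroup G) (e : NE P) (he : (e : E) ∈ G)
    (χ : IrrP p (Subgroup.normalizer (P : Set G))) : (actN p P).toSMul.smul e χ = χ := by
  rw [fixN_iff]
  intro a b hab
  have h1 : b = (⟨⟨e, he⟩, mem_NE.mp e.2⟩ : Subgroup.normalizer (P : Set G)) * a *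
      (⟨⟨e, he⟩, mem_NE.mp e.2⟩ : Subgroup.normalizer (P : Set G))⁻¹ :=
    Subtype.ext (Subtype.ext hab)
  have : Fintype (Subgroup.normalizer (P : Set G)) := Fintype.ofFinite _
  rw [h1, χ.2.1.isClass]

/-- fixed points of a subgroup and of its generator modulo `G` -/
lemma fix_gen {A : Type} (P : Subgroup G) (act : MulAction (NE P) A)
    (htriv : ∀ e : NE P, (e : E) ∈ G → ∀ a : A, act.toSMul.smul e a = a) {U : Subgroup (NE P)}
    {u : NE P} (hu : u ∈ U) (hgen : ∀ x ∈ U, ∃ k : ℕ, (x : E)⁻¹ * (u : E) ^ k ∈ G) (a : A) :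
    (∀ g ∈ U, act.toSMul.smul g a = a) ↔ act.toSMul.smul u a = a := by
  let _ := act
  change (∀ g ∈ U, g • a = a) ↔ u • a = a
  constructor
  · intro h
    exact h u hu
  · intro h g hg
    obtain ⟨k, hk⟩ := hgen g hg
    have h1 : (g⁻¹ * u ^ k) • a = a := htriv (g⁻¹ * u ^ k) hk a
    have h2 : u ^ k • a = a := by
      have h3 : u ∈ MulAction.stabilizer (NE P) a := h
      exact (MulAction.stabilizer (NE P) a).pow_mem h3 k
    rw [mul_smul, h2, inv_smul_eq_iff] at h1
    exact h1.symm

/-- **The equivariant bijections exist iff the numbers of the fixed characters agree.** -/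
theorem equi_iff (hE : ∃ e₀ : E, G ⊔ Subgroup.zpowers e₀ = ⊤) (P : Subgroup G) :
    (∃ f : IrrP p G ≃ IrrP p (Subgroup.normalizer (P : Set G)), CongDeg f ∧ EquiE P f) ↔
      ∀ e ∈ NE P, ∀ m, cf p G.subtype e m = cf p (iN P) e m := by
  constructor
  · rintro ⟨f, hf1, hf2⟩ e he m
    rw [congDeg_iff] at hf1
    rw [cfG_eq P ⟨e, he⟩, cfN_eq P ⟨e, he⟩]
    have hcomm : ∀ χ : IrrP p G, f ((actG p P).toSMul.smul ⟨e, he⟩ χ) =
        (actN p P).toSMul.smul ⟨e, he⟩ (f χ) := by
      intro χ
      apply Subtype.ext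
      funext y
      have h1 := hf2 e he χ ((actG p P).toSMul.smul ⟨e, he⟩ χ) (by
        intro x y hxy
        change χ.1 (MulAut.conjNormal (e : E)⁻¹ y) = χ.1 x
        refine congrArg χ.1 ?_
        apply Subtype.ext
        rw [MulAut.conjNormal_apply, hxy]
        group) (cjN P (⟨e, he⟩ : NE P)⁻¹ y) y (by
        rw [cjN_coe, InvMemClass.coe_inv]
        group)
      exact h1
    refine Nat.card_congr (f.subtypeEquiv fun χ => ?_)
    rw [hf1, ← hcomm]
    exact and_congr Iff.rfl f.injective.eq_iff.symm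
  · intro h
    let _ : MulAction (NE P) (IrrP p G) := actG p P
    let _ : MulAction (NE P) (IrrP p (Subgroup.normalizer (P : Set G))) := actN p P
    let _ : MulAction (NE P) (Set (ZMod p)) :=
      { smul := fun _ l => l
        one_smul := fun l => rfl
        mul_smul := fun σ τ l => rfl }
    have hsl : ∀ (g : NE P) (l : Set (ZMod p)), g • l = l := fun _ _ => rfl
    obtain ⟨f, h1, h2⟩ := burnside (M := NE P) (L := Set (ZMod p)) _ (IrrP p G)
      (IrrP p (Subgroup.normalizer (P : Set G))) (fun χ => lab p (χ.1 1))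
      (fun χ => lab p (χ.1 1)) (by
        intro g χ
        rw [hsl]
        change lab p (χ.1 (MulAut.conjNormal (g : E)⁻¹ 1)) = lab p (χ.1 1)
        rw [map_one]) (by
        intro g χ
        rw [hsl]
        change lab p (χ.1 (cjN P g⁻¹ 1)) = lab p (χ.1 1)
        rw [map_one]) (by
        intro U l
        obtain ⟨u, hu, hgen⟩ := gen_mod hE P U
        by_cases hl : ∃ m : ℕ, l = lab p (m : ℂ)
        · obtain ⟨m, rfl⟩ := hl
          have h3 := h u u.2 m
          rw [cfG_eq, cfN_eq] at h3
          unfold mark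
          refine (Nat.card_congr (Equiv.subtypeEquivRight fun χ => and_congr Iff.rfl
            (fix_gen P (actG p P) (fixG_of_mem P) hu hgen χ))).trans (h3.trans ?_)
          exact (Nat.card_congr (Equiv.subtypeEquivRight fun χ => and_congr Iff.rfl
            (fix_gen P (actN p P) (fixN_of_mem P) hu hgen χ))).symm
        · unfold mark
          have h3 : IsEmpty {x : IrrP p G // lab p (x.1 1) = l ∧ ∀ g ∈ U, g • x = x} := by
            constructor
            rintro ⟨χ, hχ, _⟩
            obtain ⟨k, hk, _⟩ := χ.2.2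
            rw [hk] at hχ
            exact hl ⟨k, hχ.symm⟩
          have h4 : IsEmpty {x : IrrP p (Subgroup.normalizer (P : Set G)) //
              lab p (x.1 1) = l ∧ ∀ g ∈ U, g • x = x} := by
            constructor
            rintro ⟨χ, hχ, _⟩
            obtain ⟨k, hk, _⟩ := χ.2.2
            rw [hk] at hχ
            exact hl ⟨k, hχ.symm⟩
          rw [Nat.card_of_isEmpty, Nat.card_of_isEmpty]) le_rfl
    refine ⟨f, congDeg_iff.mpr h2, ?_⟩
    intro e he χ ψ hψ x y hxy
    have h3 : ψ = (⟨e, he⟩ : NE P) • χ := by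
      apply Subtype.ext
      funext z
      change ψ.1 z = χ.1 (MulAut.conjNormal (e : E)⁻¹ z)
      apply hψ
      rw [MulAut.conjNormal_apply]
      group
    rw [h3, h1]
    change (f χ).1 (cjN P (⟨e, he⟩ : NE P)⁻¹ y) = (f χ).1 x
    refine congrArg (f χ).1 ?_
    apply Subtype.ext
    apply Subtype.ext
    rw [cjN_coe, hxy, InvMemClass.coe_inv]
    group

/-- **The local theorem.** -/
theorem local_iff (P : Sylow p G) :
    (∀ X : Subgroup E, G ≤ X → (∃ e : E, X = G ⊔ Subgroup.zpowers e) →
      ∀ m, num p X m = num p (X ⊓ NE (P : Subgroup G) : Subgroup E) m) ↔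
    ∀ e ∈ NE (P : Subgroup G), ∀ m, cf p G.subtype e m = cf p (iN (P : Subgroup G)) e m := by
  constructor
  · intro h e he m
    refine main_fix (P : Subgroup G) ?_ _ e he rfl m
    intro e _ m
    exact h _ le_sup_left ⟨e, rfl⟩ m
  · rintro h X hX ⟨e, rfl⟩ m
    obtain ⟨k, hk, he⟩ := frattini P e
    rw [he]
    exact main_num (P : Subgroup G) h k hk m

end

/-- the case of the whole group -/
theorem num_of_top {p : ℕ} [hp : Fact p.Prime] {H : Type} [Group H] [Finite H] (R : Sylow p H)
    (m : ℕ) (h1 : cf p (⊤ : Subgroup H).subtype 1 m =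
      cf p (iN ((R.subtype le_top : Sylow p (⊤ : Subgroup H)) : Subgroup (⊤ : Subgroup H))) 1 m) :
    num p H m = num p (Subgroup.normalizer ((R : Subgroup H) : Set H)) m := by
  have hRle : (R : Subgroup H) ≤ ⊤ := le_top
  have hc : ∀ (A : Type) [Group A] (i : A →* H), Function.Injective i →
      cf p i 1 m = num p A m := by
    intro A _ i hi
    unfold cf num
    refine Nat.card_congr (Equiv.subtypeEquivRight fun χ => ?_)
    refine and_congr Iff.rfl ⟨fun h => h.1, fun h => ⟨h, ?_⟩⟩
    intro a b hab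
    rw [one_mul, inv_one, mul_one] at hab
    rw [hi hab]
  rw [hc _ _ (Subgroup.subtype_injective _), hc _ _ (iN_inj _)] at h1
  have h2 := num_equiv (Subgroup.topEquiv (G := H)) p m
  have h3 : Subgroup.normalizer (((R.subtype hRle : Sylow p _) :
      Subgroup (⊤ : Subgroup H)) : Set (⊤ : Subgroup H)) =
      (Subgroup.normalizer ((R : Subgroup H) : Set H)).subgroupOf ⊤ := by
    rw [Subgroup.subgroupOf_normalizer_eq hRle, Sylow.coe_subtype]
  have h4 := num_equiv ((MulEquiv.subgroupCongr h3).trans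
    (Subgroup.subgroupOfEquivOfLe le_top)) p m
  rw [← h2, h1, h4]

/-- **The global theorem.** -/
theorem global {p : ℕ} [hp : Fact p.Prime] :
    (∀ (H : Type) [Group H] [Finite H] (R : Sylow p H),
      ∃ f : IrrP p H ≃ IrrP p (Subgroup.normalizer ((R : Subgroup H) : Set H)), CongDeg f) ↔
    ∀ (E : Type) [Group E] [Finite E] (G : Subgroup E) [G.Normal] (P : Sylow p G),
      ∀ e ∈ NE (P : Subgroup G), ∀ m, cf p G.subtype e m = cf p (iN (P : Subgroup G)) e m := by
  constructor
  · intro h E _ _ G _ P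
    rw [← local_iff P]
    intro X hX _ m
    apply num_inf _ P hX
    intro H _ _ R
    exact bij_iff.mp (h H R)
  · intro h H _ _ R
    rw [bij_iff]
    intro m
    exact num_of_top R m (h H ⊤ (R.subtype le_top) 1 (Subgroup.one_mem _) m)

end Pool.Agent.X209.EQ
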